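import Mathlib
import Pool.Agent.Lib.MP_176ace_nt.AllDegrees

set_option autoImplicit false

/-!
For every `d ≥ 5` and every `m > 1` there is a number field of degree `d` whose class group has
`m`-rank at least `⌊d / 2⌋ + 4`.
-/

namespace Pool.Agent.Results.MP_176ace_nt.AllDegrees

open Pool.Agent.Lib.MP_176ace_nt

theorem result :
    ∀ d : ℕ, 5 ≤ d → ∀ m : ℕ, 1 < m →
      ∃ (K : Type) (_ : Field K) (_ : NumberField K),
        Module.finrank ℚ K = d ∧
        ∃ f : Multiplicative (Fin (d / 2 + 4) → ZMod m) →*
            ClassGroup (NumberField.RingOfIntegers K),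
          Function.Injective f := by
  intro d hd m hm
  exact rank_all_degrees hd (by omega)

end Pool.Agent.Results.MP_176ace_nt.AllDegrees
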