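import Mathlib
import Pool.Agent.Lib.MP_176ace_nt.Gr.Field

set_option autoImplicit false

/-!
For every `R` and all sufficiently large `d` (depending only on `R`), for every `m > 1` there is a
number field of degree `d` whose class group has `m`-rank at least `⌊d / 2⌋ + R`.
-/

namespace Pool.Agent.Results.MP_176ace_nt.GrowingGain

open Pool.Agent.Lib.MP_176ace_nt

theorem result :
    ∀ R : ℕ, ∃ d0 : ℕ, ∀ d : ℕ, d0 ≤ d → ∀ m : ℕ, 1 < m →
      ∃ (K : Type) (_ : Field K) (_ : NumberField K),
        Module.finrank ℚ K = d ∧
        ∃ f : Multiplicative (Fin (d / 2 + R) → ZMod m) →*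
            ClassGroup (NumberField.RingOfIntegers K),
          Function.Injective f :=
  fun R => Gr.growing_of Gr.thmB R

end Pool.Agent.Results.MP_176ace_nt.GrowingGain
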