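import Mathlib
import Pool.Agent.Lib.MP_176ace_nt.Pte

set_option autoImplicit false

/-!
For `d` in `{3, ..., 10, 12}` and every `m ≥ 1` there is a number field of degree `d` whose class
group has `m`-rank at least `⌊3 d / 2⌋ - 1`.
-/

namespace Pool.Agent.Results.MP_176ace_nt.SmallDegrees

open Pool.Agent.Lib.MP_176ace_nt

/-- There is a number field of degree `d` whose class group contains `(ℤ/mℤ)^r`. -/
theorem of_pte {g r : ℕ} (hr : r = (g + 1) / 2 + g) (a b : Fin (g + 1) → ℤ)
    (ha : Function.Injective a)
    (hb : Function.Injective b) {C0 : ℤ} (hC0 : 0 < C0) (hA : ∀ j, ∏ i, (b j - a i) = C0)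
    {m : ℕ} (hm : 0 < m) :
    ∃ (K : Type) (_ : Field K) (_ : NumberField K), Module.finrank ℚ K = g + 1 ∧
      ∃ f : Multiplicative (Fin r → ZMod m) →* ClassGroup (NumberField.RingOfIntegers K),
        Function.Injective f := by
  subst hr
  exact rank_of_pte a b ha hb hC0 hA hm

theorem result :
    ∀ d ∈ ({3, 4, 5, 6, 7, 8, 9, 10, 12} : Finset ℕ), ∀ m : ℕ, 1 < m →
      ∃ (K : Type) (_ : Field K) (_ : NumberField K),
        Module.finrank ℚ K = d ∧
        ∃ f : Multiplicative (Fin (3 * d / 2 - 1) → ZMod m) →*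
            ClassGroup (NumberField.RingOfIntegers K),
          Function.Injective f := by
  intro d hd m hm1
  have hm : 0 < m := by omega
  simp only [Finset.mem_insert, Finset.mem_singleton] at hd
  rcases hd with rfl | rfl | rfl | rfl | rfl | rfl | rfl | rfl | rfl
  · exact of_pte (g := 2) (C0 := 12) (by norm_num) ![0, 4, 5] ![1, 2, 6] (by decide) (by decide)
      (by norm_num) (by decide) hm
  · exact of_pte (g := 3) (C0 := 180) (by norm_num) ![1, 2, 9, 10] ![0, 4, 7, 11] (by decide)
      (by decide) (by norm_num) (by decide) hm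
  · exact of_pte (g := 4) (C0 := 5040) (by norm_num) ![0, 4, 8, 16, 17] ![1, 2, 10, 14, 18]
      (by decide) (by decide) (by norm_num) (by decide) hm
  · exact of_pte (g := 5) (C0 := 201600) (by norm_num) ![1, 2, 12, 14, 24, 25]
      ![0, 4, 9, 17, 22, 26] (by decide) (by decide) (by norm_num) (by decide) hm
  · exact of_pte (g := 6) (C0 := 13967553600) (by norm_num) ![0, 18, 27, 58, 64, 89, 101]
      ![1, 13, 38, 44, 75, 84, 102] (by decide) (by decide) (by norm_num) (by decide) hm
  · exact of_pte (g := 7) (C0 := 1210809600) (by norm_num) ![1, 2, 11, 20, 30, 39, 48, 49]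
      ![0, 4, 9, 23, 27, 41, 46, 50] (by decide) (by decide) (by norm_num) (by decide) hm
  · exact of_pte (g := 8) (C0 := 3377425033382400) (by norm_num)
      ![0, 24, 30, 83, 86, 133, 157, 181, 197] ![1, 17, 41, 65, 112, 115, 168, 174, 198]
      (by decide) (by decide) (by norm_num) (by decide) hm
  · exact of_pte (g := 9) (C0 := 5687272703608009113600) (by norm_num)
      ![5, 6, 133, 182, 242, 384, 444, 493, 620, 621]
      ![0, 12, 125, 213, 214, 412, 413, 501, 614, 626]
      (by decide) (by decide) (by norm_num) (by decide) hm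
  · exact of_pte (g := 11) (C0 := 67440294559676054016000) (by norm_num)
      ![3, 5, 30, 57, 104, 116, 186, 198, 245, 272, 297, 299]
      ![0, 11, 24, 65, 90, 129, 173, 212, 237, 278, 291, 302]
      (by decide) (by decide) (by norm_num) (by decide) hm

end Pool.Agent.Results.MP_176ace_nt.SmallDegrees
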